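import Pool.Agent.R42.FQ.Defs

open Finset Classical

namespace MP_1aba1b

section

variable {k : ℕ} {Γ Idx : Type} [AddCommGroup Γ] [Fintype Γ] [Fintype Idx]

/-- the colour of a group element -/
noncomputable def gcol (gen : Idx → Γ) (color : Idx → Fin k) (j0 : Fin k) (g : Γ) : Fin k :=
  if h : ∃ p, gen p = g then color h.choose else j0

omit [AddCommGroup Γ] [Fintype Γ] in
theorem gcol_gen (gen : Idx → Γ) (color : Idx → Fin k) (j0 : Fin k)
    (hinj : Function.Injective gen) (p : Idx) : gcol gen color j0 (gen p) = color p := by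
  unfold gcol
  have h : ∃ p', gen p' = gen p := ⟨p, rfl⟩
  rw [dif_pos h]
  congr 1
  exact hinj h.choose_spec

end

theorem cayley (h2 : St_two) : St_cayley := by
  intro k hk Γ _ _ Idx _ gen color a hchar hinj hne hmono hpos hdeg hflip
  refine ⟨hmono, hpos, Γ, inferInstance, ⟨0⟩, ?_⟩
  let j0 : Fin k := ⟨0, hk⟩
  obtain ⟨G, hAdj⟩ : ∃ G : SimpleGraph Γ, ∀ x y, G.Adj x y ↔ ∃ p, gen p = x + y :=
    ⟨{ Adj := fun x y => ∃ p, gen p = x + y
       symm := ⟨by
        rintro x y ⟨p, hp⟩
        exact ⟨p, by rw [hp, add_comm]⟩⟩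
       loopless := ⟨by
        rintro x ⟨p, hp⟩
        rw [hchar] at hp
        exact hne p hp⟩ }, fun _ _ => Iff.rfl⟩
  obtain ⟨f, hf⟩ : ∃ f : Sym2 Γ → Fin k, ∀ x y, f s(x, y) = gcol gen color j0 (x + y) :=
    ⟨Sym2.lift ⟨fun x y => gcol gen color j0 (x + y), fun x y => by
      show gcol gen color j0 (x + y) = gcol gen color j0 (y + x)
      rw [add_comm]⟩, fun _ _ => rfl⟩
  have hcol : ∀ x y (j : Fin k), (G.Adj x y ∧ f s(x, y) = j) ↔
      ∃ p, gen p = x + y ∧ color p = j := by
    intro x y j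
    rw [hAdj, hf]
    constructor
    · rintro ⟨⟨p, hp⟩, hj⟩
      refine ⟨p, hp, ?_⟩
      rw [← hp, gcol_gen gen color j0 hinj] at hj
      exact hj
    · rintro ⟨p, hp, hj⟩
      refine ⟨⟨p, hp⟩, ?_⟩
      rw [← hp, gcol_gen gen color j0 hinj]
      exact hj
  have hcancel : ∀ x y : Γ, x + (x + y) = y := by
    intro x y
    rw [← add_assoc, hchar, zero_add]
  -- the closed count
  have key : ∀ (v : Γ) (j : Fin k), 2 * closedCount G f j v =
      ∑ u ∈ univ.filter (fun u => color u = j),
        (2 + (univ.filter (fun p => ∃ r, gen r = gen u + gen p)).card) := by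
    intro v j
    rw [(h2 Γ k G f j v).1]
    -- substitute
    trans (∑ g : Γ, ∑ g' : Γ, if (∃ u, gen u = g + g' ∧ color u = j) ∧
      (g = 0 ∨ ∃ p, gen p = g) ∧ (g' = 0 ∨ ∃ p, gen p = g') then 1 else 0)
    · rw [← Equiv.sum_comp (Equiv.addLeft v)]
      refine Finset.sum_congr rfl fun g _ => ?_
      rw [← Equiv.sum_comp (Equiv.addLeft v)]
      refine Finset.sum_congr rfl fun g' _ => ?_
      have a1 : (v + g) + (v + g') = g + g' := by
        have : (v + g) + (v + g') = (v + v) + (g + g') := by abel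
        rw [this, hchar, zero_add]
      have a2 : ∀ w : Γ, (v + w = v ∨ G.Adj v (v + w)) ↔ (w = 0 ∨ ∃ p, gen p = w) := by
        intro w
        rw [hAdj, hcancel]
        simp
      simp only [Equiv.coe_addLeft]
      have a3 := hcol (v + g) (v + g') j
      rw [a1] at a3
      refine if_congr ?_ rfl rfl
      rw [← and_assoc, a3, a2, a2]
    -- count
    have e2 : ∀ g g' : Γ, (if (∃ u, gen u = g + g' ∧ color u = j) ∧ (g = 0 ∨ ∃ p, gen p = g) ∧
          (g' = 0 ∨ ∃ p, gen p = g') then 1 else 0 : ℕ) =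
        ∑ u ∈ univ.filter (fun u => color u = j), if gen u = g + g' ∧ (g = 0 ∨ ∃ p, gen p = g) ∧
          (g' = 0 ∨ ∃ p, gen p = g') then 1 else 0 := by
      intro g g'
      split_ifs with h
      · obtain ⟨⟨u, hu, hj⟩, hg, hg'⟩ := h
        rw [Finset.sum_eq_single_of_mem u (by simp [hj])]
        · rw [if_pos ⟨hu, hg, hg'⟩]
        · intro u' _ hne'
          rw [if_neg]
          rintro ⟨h3, -⟩
          exact hne' (hinj (h3.trans hu.symm))
      · symm
        apply Finset.sum_eq_zero
        intro u hu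
        rw [if_neg]
        rintro ⟨h3, h4, h5⟩
        exact h ⟨⟨u, h3, by simpa using hu⟩, h4, h5⟩
    have e3 : (∑ g : Γ, ∑ g' : Γ,
        if (∃ u, gen u = g + g' ∧ color u = j) ∧ (g = 0 ∨ ∃ p, gen p = g) ∧
          (g' = 0 ∨ ∃ p, gen p = g') then 1 else 0) =
        ∑ u ∈ univ.filter (fun u => color u = j), ∑ g : Γ, ∑ g' : Γ,
        if gen u = g + g' ∧ (g = 0 ∨ ∃ p, gen p = g) ∧ (g' = 0 ∨ ∃ p, gen p = g')
          then 1 else 0 := by
      refine Eq.trans (Finset.sum_congr rfl fun g _ => Finset.sum_congr rfl fun g' _ => e2 g g') ?_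
      refine Eq.trans (Finset.sum_congr rfl fun g _ => Finset.sum_comm) ?_
      exact Finset.sum_comm
    rw [e3]
    refine Finset.sum_congr rfl fun u _ => ?_
    have e4 : ∀ g : Γ, (∑ g' : Γ,
        if gen u = g + g' ∧ (g = 0 ∨ ∃ p, gen p = g) ∧ (g' = 0 ∨ ∃ p, gen p = g')
          then 1 else 0 : ℕ) =
        if (g = 0 ∨ ∃ p, gen p = g) ∧ (gen u + g = 0 ∨ ∃ p, gen p = gen u + g)
          then 1 else 0 := by
      intro g
      rw [Finset.sum_eq_single_of_mem (gen u + g) (mem_univ _)]
      · refine if_congr ?_ rfl rfl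
        constructor
        · rintro ⟨-, h3⟩; exact h3
        · intro h3
          refine ⟨?_, h3⟩
          have : g + (gen u + g) = gen u + (g + g) := by abel
          rw [this, hchar, add_zero]
      · intro g' _ hne'
        rw [if_neg]
        rintro ⟨h3, -⟩
        apply hne'
        rw [h3]
        have : g + g' + g = g' + (g + g) := by abel
        rw [this, hchar, add_zero]
    rw [Finset.sum_congr rfl fun g _ => e4 g, ← Finset.card_filter]
    have e5 : univ.filter (fun g : Γ => (g = 0 ∨ ∃ p, gen p = g) ∧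
        (gen u + g = 0 ∨ ∃ p, gen p = gen u + g)) =
        {0, gen u} ∪ (univ.filter (fun p => ∃ r, gen r = gen u + gen p)).image gen := by
      ext g
      simp only [mem_filter, mem_univ, true_and, mem_union, mem_insert, mem_singleton, mem_image]
      constructor
      · rintro ⟨h3 | ⟨p, rfl⟩, h4⟩
        · exact Or.inl (Or.inl h3)
        · rcases h4 with h4 | ⟨r, hr⟩
          · left; right
            have h6 := hcancel (gen u) (gen p)
            rw [h4, add_zero] at h6
            exact h6.symm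
          · right
            exact ⟨p, ⟨r, hr⟩, rfl⟩
      · rintro ((rfl | rfl) | ⟨p, ⟨r, hr⟩, rfl⟩)
        · exact ⟨Or.inl rfl, Or.inr ⟨u, by simp⟩⟩
        · exact ⟨Or.inr ⟨u, rfl⟩, Or.inl (hchar _)⟩
        · exact ⟨Or.inr ⟨p, rfl⟩, Or.inr ⟨r, hr⟩⟩
    rw [e5, card_union_of_disjoint, card_pair (fun h => hne u h.symm),
      card_image_of_injective _ hinj]
    rw [Finset.disjoint_left]
    intro g hg hg'
    simp only [mem_filter, mem_univ, true_and, mem_insert, mem_singleton, mem_image] at hg hg'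
    obtain ⟨p, ⟨r, hr⟩, rfl⟩ := hg'
    rcases hg with hg | hg
    · exact hne p hg
    · rw [hg, hchar] at hr
      exact hne r hr
  refine ⟨G, f, ?_, ?_⟩
  · intro v j
    rw [(h2 Γ k G f j v).2, ← hdeg j, Finset.card_filter]
    rw [← Equiv.sum_comp (Equiv.addLeft v)]
    trans (∑ g : Γ, if (∃ p, gen p = g ∧ color p = j) then 1 else 0)
    · refine Finset.sum_congr rfl fun g _ => if_congr ?_ rfl rfl
      simp only [Equiv.coe_addLeft]
      rw [hcol, hcancel]
    rw [← Finset.card_filter, ← Finset.card_filter]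
    have e7 : univ.filter (fun g : Γ => ∃ p, gen p = g ∧ color p = j) =
        (univ.filter (fun p => color p = j)).image gen := by
      ext g
      simp only [mem_filter, mem_univ, true_and, mem_image]
      constructor
      · rintro ⟨p, h3, h4⟩; exact ⟨p, h4, h3⟩
      · rintro ⟨p, h3, h4⟩; exact ⟨p, h4, h3⟩
    rw [e7, card_image_of_injective _ hinj]
  · intro v i j hij
    have h3 := hflip i j hij
    rw [← key v i, ← key v j] at h3
    omega

end MP_1aba1b
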