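import Pool.Agent.R42.FQ.Defs

set_option autoImplicit false

open Finset Classical

namespace MP_1aba1b

noncomputable section

namespace FCon

/-! ### single functions with values in `ZMod 2` -/

theorem zz (a : ZMod 2) : a + a = 0 := by
  revert a; decide

theorem s1 {T : Type} [DecidableEq T] (a b c : T) :
    (Pi.single a (1 : ZMod 2) : T → ZMod 2) ≠ Pi.single b 1 + Pi.single c 1 := by
  intro h
  by_cases hbc : b = c
  · subst hbc
    have := congrFun h a
    rw [Pi.single_eq_same, Pi.add_apply, zz] at this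
    exact one_ne_zero this
  · have h1 := congrFun h b
    have h2 := congrFun h c
    rw [Pi.add_apply, Pi.single_eq_same, Pi.single_eq_of_ne hbc, add_zero] at h1
    rw [Pi.add_apply, Pi.single_eq_same, Pi.single_eq_of_ne (Ne.symm hbc), zero_add] at h2
    have hab : b = a := by
      by_contra hne
      rw [Pi.single_eq_of_ne hne] at h1
      exact zero_ne_one h1
    have hac : c = a := by
      by_contra hne
      rw [Pi.single_eq_of_ne hne] at h2
      exact zero_ne_one h2
    exact hbc (hab.trans hac.symm)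

theorem s2 {T : Type} [DecidableEq T] (a : T) : (Pi.single a (1 : ZMod 2) : T → ZMod 2) ≠ 0 := by
  intro h
  have := congrFun h a
  rw [Pi.single_eq_same, Pi.zero_apply] at this
  exact one_ne_zero this

theorem s3 {T : Type} [DecidableEq T] {a b : T}
    (h : (Pi.single a (1 : ZMod 2) : T → ZMod 2) = Pi.single b 1) : a = b := by
  by_contra hne
  have := congrFun h a
  rw [Pi.single_eq_same, Pi.single_eq_of_ne hne] at this
  exact one_ne_zero this

theorem s5 {T : Type} [DecidableEq T] {a b : T}
    (h : (0 : T → ZMod 2) = Pi.single a 1 + Pi.single b 1) : a = b := by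
  by_contra hne
  have := congrFun h a
  rw [Pi.add_apply, Pi.single_eq_same, Pi.single_eq_of_ne hne, add_zero] at this
  exact zero_ne_one this

theorem ff {T : Type} (x : T → ZMod 2) : x + x = 0 := by
  funext t; exact zz _

variable {q B : ℕ}

/-- small generators -/
abbrev Ka (q : ℕ) : Type := Σ i : Fin q, Fin (i.val + 3)

/-- blocks -/
abbrev Io (m : Fin B → Fin (q + 1) → ℕ) : Type := Σ b : Fin B, Σ j : Fin (q + 1), Fin (m b j)

/-- level of a block -/
def lev (m : Fin B → Fin (q + 1) → ℕ) (i : Io m) : ℕ := i.2.1.val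

/-- the elements of a block -/
abbrev Blk (m : Fin B → Fin (q + 1) → ℕ) (i : Io m) : Type :=
  {x : Ka q → ZMod 2 // ∀ c, ¬ (c.1.val < lev m i) → x c = 0}

/-- generators -/
abbrev Ix (m : Fin B → Fin (q + 1) → ℕ) : Type := Ka q ⊕ Σ i : Io m, Blk m i

/-- the group -/
abbrev Gam (m : Fin B → Fin (q + 1) → ℕ) : Type := (Ka q → ZMod 2) × (Io m → ZMod 2)

variable (m : Fin B → Fin (q + 1) → ℕ)

/-- the generators as elements of the group -/
def gen : Ix m → Gam m
  | Sum.inl c => (Pi.single c 1, 0)
  | Sum.inr p => (p.2.1, Pi.single p.1 1)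

/-- the colours -/
def color : Ix m → Fin (q + B)
  | Sum.inl c => Fin.castAdd B c.1
  | Sum.inr p => Fin.natAdd q p.1.1

theorem gen_inj : Function.Injective (gen m) := by
  rintro (c | ⟨i, x⟩) (c' | ⟨i', x'⟩) h
  · rw [s3 (congrArg Prod.fst h)]
  · exact absurd (congrArg Prod.snd h).symm (s2 _)
  · exact absurd (congrArg Prod.snd h) (s2 _)
  · have h2 := s3 (congrArg Prod.snd h)
    simp only at h2
    subst h2
    have h1 : x = x' := Subtype.ext (congrArg Prod.fst h)
    rw [h1]

theorem gen_ne (p : Ix m) : gen m p ≠ 0 := by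
  rcases p with c | ⟨i, x⟩
  · intro h
    exact s2 _ (congrArg Prod.fst h)
  · intro h
    exact s2 _ (congrArg Prod.snd h)

theorem gam_two (x : Gam m) : x + x = 0 := Prod.ext (ff _) (ff _)

/-! ### cardinalities -/

theorem sum_ka (g : Fin q → ℕ) : ∑ c : Ka q, g c.1 = ∑ i : Fin q, (i.val + 3) * g i := by
  rw [Fintype.sum_sigma]
  refine Finset.sum_congr rfl (fun i _ => ?_)
  simp

theorem card_ka (j : ℕ) (hj : j ≤ q) : ∑ c : Ka q, (if c.1.val < j then 1 else 0) = sJ j := by
  rw [sum_ka (fun i : Fin q => if i.val < j then 1 else 0)]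
  rw [Fin.sum_univ_eq_sum_range (fun i => (i + 3) * (if i < j then 1 else 0)) q]
  unfold sJ
  simp only [mul_ite, mul_one, mul_zero]
  rw [← Finset.sum_filter]
  refine Finset.sum_congr ?_ (fun _ _ => rfl)
  ext a
  simp only [mem_filter, mem_range]
  omega

theorem lev_le (i : Io m) : lev m i ≤ q := by
  have := i.2.1.isLt
  unfold lev
  omega

theorem card_blk (i : Io m) : Fintype.card (Blk m i) = 2 ^ sJ (lev m i) := by
  have e : Blk m i ≃ ({c : Ka q // c.1.val < lev m i} → ZMod 2) :=
    { toFun := fun x c => x.1 c.1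
      invFun := fun y => ⟨fun c => if h : c.1.val < lev m i then y ⟨c, h⟩ else 0,
        fun c hc => dif_neg hc⟩
      left_inv := by
        intro x
        apply Subtype.ext
        funext c
        by_cases h : c.1.val < lev m i
        · exact dif_pos h
        · exact (dif_neg h).trans (x.2 c h).symm
      right_inv := by
        intro y
        funext c
        exact dif_pos c.2 }
  rw [Fintype.card_congr e, Fintype.card_fun, ZMod.card, Fintype.card_subtype,
    ← card_ka (lev m i) (lev_le m i), Finset.card_filter]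

theorem sum_io (g : Fin B → ℕ → ℕ) :
    ∑ i : Io m, g i.1 (lev m i) = ∑ b : Fin B, ∑ j : Fin (q + 1), m b j * g b j.val := by
  rw [Fintype.sum_sigma]
  refine Finset.sum_congr rfl (fun b _ => ?_)
  rw [Fintype.sum_sigma]
  refine Finset.sum_congr rfl (fun j _ => ?_)
  simp [lev]

theorem sum_left (i : Fin q) (g : Ix m → ℕ) (v : ℕ)
    (hg : ∀ c : Ka q, c.1 = i → g (Sum.inl c) = v) :
    ∑ u ∈ univ.filter (fun u => color m u = Fin.castAdd B i), g u = (i.val + 3) * v := by
  rw [Finset.sum_filter, Fintype.sum_sum_type]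
  have h2 : ∑ p : (Σ i : Io m, Blk m i),
      (if color m (Sum.inr p) = Fin.castAdd B i then g (Sum.inr p) else 0) = 0 := by
    refine Finset.sum_eq_zero (fun p _ => if_neg ?_)
    intro h
    have := congrArg Fin.val h
    simp only [color, Fin.val_natAdd, Fin.val_castAdd] at this
    have := i.isLt
    omega
  rw [h2, add_zero]
  have h1 : ∀ c : Ka q, (if color m (Sum.inl c) = Fin.castAdd B i then g (Sum.inl c) else 0) =
      (fun i' : Fin q => if i' = i then v else 0) c.1 := by
    intro c
    by_cases hc : c.1 = i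
    · simp only [color, hc, if_true]
      exact hg c hc
    · have : color m (Sum.inl c) ≠ Fin.castAdd B i := by
        intro h
        exact hc (Fin.castAdd_injective _ _ h)
      simp only [if_neg this, if_neg hc]
  rw [Finset.sum_congr rfl (fun c _ => h1 c), sum_ka (fun i' : Fin q => if i' = i then v else 0)]
  simp

theorem sum_right (b : Fin B) (g : Ix m → ℕ) (w : ℕ → ℕ)
    (hg : ∀ p : (Σ i : Io m, Blk m i), g (Sum.inr p) = w (lev m p.1)) :
    ∑ u ∈ univ.filter (fun u => color m u = Fin.natAdd q b), g u =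
      ∑ j : Fin (q + 1), m b j * 2 ^ sJ j.val * w j.val := by
  rw [Finset.sum_filter, Fintype.sum_sum_type]
  have h2 : ∑ c : Ka q,
      (if color m (Sum.inl c) = Fin.natAdd q b then g (Sum.inl c) else 0) = 0 := by
    refine Finset.sum_eq_zero (fun p _ => if_neg ?_)
    intro h
    have := congrArg Fin.val h
    simp only [color, Fin.val_natAdd, Fin.val_castAdd] at this
    have := p.1.isLt
    omega
  rw [h2, zero_add, Fintype.sum_sigma]
  have h1 : ∀ i : Io m, (∑ x : Blk m i, if color m (Sum.inr ⟨i, x⟩) = Fin.natAdd q b then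
      g (Sum.inr ⟨i, x⟩) else 0) =
      (fun (b' : Fin B) (j : ℕ) => if b' = b then 2 ^ sJ j * w j else 0) i.1 (lev m i) := by
    intro i
    by_cases hc : i.1 = b
    · simp only [color, hc, if_true]
      rw [Finset.sum_congr rfl (fun x _ => hg ⟨i, x⟩)]
      simp [card_blk]
    · have : ∀ x, color m (Sum.inr ⟨i, x⟩) ≠ Fin.natAdd q b := by
        intro x h
        exact hc (Fin.natAdd_injective _ _ h)
      simp only [if_neg (this _), if_neg hc, Finset.sum_const_zero]
  rw [Finset.sum_congr rfl (fun c _ => h1 c),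
    sum_io m (fun (b' : Fin B) (j : ℕ) => if b' = b then 2 ^ sJ j * w j else 0)]
  rw [Finset.sum_eq_single b]
  · refine Finset.sum_congr rfl (fun j _ => ?_)
    simp only [if_true]
    ring
  · intro b' _ hb'
    simp only [if_neg hb', mul_zero, Finset.sum_const_zero]
  · intro h
    exact absurd (Finset.mem_univ b) h

/-! ### the number of solutions -/

/-- `∃ r, gen r = gen u + gen p` -/
def Sol (u p : Ix m) : Prop := ∃ r, gen m r = gen m u + gen m p

theorem sol_comm (u p : Ix m) : Sol m u p ↔ Sol m p u := by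
  unfold Sol
  rw [add_comm]

theorem sol_ll (c c' : Ka q) : ¬ Sol m (Sum.inl c) (Sum.inl c') := by
  rintro ⟨c'' | ⟨i, x⟩, h⟩
  · exact s1 _ _ _ (congrArg Prod.fst h)
  · have := congrArg Prod.snd h
    simp only [gen, Prod.snd_add, add_zero] at this
    exact s2 _ this

theorem sol_lr (c : Ka q) (i : Io m) (x : Blk m i) :
    Sol m (Sum.inl c) (Sum.inr ⟨i, x⟩) ↔ c.1.val < lev m i := by
  constructor
  · rintro ⟨c'' | ⟨i', x'⟩, h⟩
    · have := congrArg Prod.snd h
      simp only [gen, Prod.snd_add, zero_add] at this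
      exact absurd this.symm (s2 _)
    · have h2 := congrArg Prod.snd h
      simp only [gen, Prod.snd_add, zero_add] at h2
      obtain rfl := s3 h2
      have h1 := congrArg Prod.fst h
      simp only [gen, Prod.fst_add] at h1
      by_contra hc
      have h3 := congrFun h1 c
      rw [Pi.add_apply, Pi.single_eq_same, x.2 c hc, x'.2 c hc, add_zero] at h3
      exact zero_ne_one h3
  · intro hc
    refine ⟨Sum.inr ⟨i, ⟨Pi.single c 1 + x.1, ?_⟩⟩, ?_⟩
    · intro c' hc'
      have hne : c' ≠ c := by
        rintro rfl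
        exact hc' hc
      rw [Pi.add_apply, Pi.single_eq_of_ne hne, x.2 c' hc', add_zero]
    · simp only [gen]
      ext1
      · rfl
      · simp

theorem sol_rr (i i' : Io m) (x : Blk m i) (x' : Blk m i') :
    Sol m (Sum.inr ⟨i, x⟩) (Sum.inr ⟨i', x'⟩) ↔
      i' = i ∧ ∃ c : Ka q, Pi.single c (1 : ZMod 2) = x.1 + x'.1 := by
  constructor
  · rintro ⟨c'' | ⟨i'', x''⟩, h⟩
    · have h2 := congrArg Prod.snd h
      simp only [gen, Prod.snd_add] at h2
      exact ⟨(s5 h2).symm, c'', congrArg Prod.fst h⟩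
    · exact absurd (congrArg Prod.snd h) (s1 _ _ _)
  · rintro ⟨rfl, c, hc⟩
    refine ⟨Sum.inl c, ?_⟩
    simp only [gen]
    ext1
    · exact hc
    · simp only [Prod.snd_add, ff]

theorem card_rr (i : Io m) (x : Blk m i) :
    (univ.filter (fun x' : Blk m i => ∃ c : Ka q, Pi.single c (1 : ZMod 2) = x.1 + x'.1)).card =
      sJ (lev m i) := by
  rw [← card_ka (lev m i) (lev_le m i), ← Finset.card_filter]
  symm
  refine Finset.card_bij (fun c hc => (⟨x.1 + Pi.single c 1, ?_⟩ : Blk m i)) ?_ ?_ ?_
  · intro c' hc'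
    have hne : c' ≠ c := by
      rintro rfl
      exact hc' (Finset.mem_filter.1 hc).2
    rw [Pi.add_apply, Pi.single_eq_of_ne hne, x.2 c' hc', add_zero]
  · intro c hc
    rw [Finset.mem_filter]
    refine ⟨Finset.mem_univ _, c, ?_⟩
    rw [← add_assoc, ff, zero_add]
  · intro c hc c' hc' h
    have := congrArg Subtype.val h
    simp only at this
    exact s3 (add_left_cancel this)
  · intro x' hx'
    obtain ⟨c, hc⟩ := (Finset.mem_filter.1 hx').2
    have h1 : x.1 + Pi.single c 1 = x'.1 := by rw [hc, ← add_assoc, ff, zero_add]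
    refine ⟨c, ?_, Subtype.ext h1⟩
    rw [Finset.mem_filter]
    refine ⟨Finset.mem_univ _, ?_⟩
    by_contra hcl
    have h2 := congrFun h1 c
    rw [Pi.add_apply, Pi.single_eq_same, x.2 c hcl, x'.2 c hcl, zero_add] at h2
    exact one_ne_zero h2

theorem card_l (c : Ka q) : (univ.filter (fun p => Sol m (Sum.inl c) p)).card =
    ∑ b : Fin B, ∑ j : Fin (q + 1), if c.1.val < j.val then m b j * 2 ^ sJ j else 0 := by
  rw [Finset.card_filter, Fintype.sum_sum_type]
  have h1 : ∑ c' : Ka q, (if Sol m (Sum.inl c) (Sum.inl c') then 1 else 0) = 0 :=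
    Finset.sum_eq_zero (fun c' _ => if_neg (sol_ll m c c'))
  rw [h1, zero_add, Fintype.sum_sigma]
  have h2 : ∀ i : Io m, (∑ x : Blk m i, if Sol m (Sum.inl c) (Sum.inr ⟨i, x⟩) then 1 else 0) =
      (fun (_ : Fin B) (j : ℕ) => if c.1.val < j then 2 ^ sJ j else 0) i.1 (lev m i) := by
    intro i
    simp only [sol_lr]
    by_cases hc : c.1.val < lev m i
    · simp [hc, card_blk]
    · simp [hc]
  rw [Finset.sum_congr rfl (fun i _ => h2 i),
    sum_io m (fun (_ : Fin B) (j : ℕ) => if c.1.val < j then 2 ^ sJ j else 0)]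
  refine Finset.sum_congr rfl (fun b _ => Finset.sum_congr rfl (fun j _ => ?_))
  simp only [mul_ite, mul_zero]

theorem card_r (i : Io m) (x : Blk m i) :
    (univ.filter (fun p => Sol m (Sum.inr ⟨i, x⟩) p)).card = 2 * sJ (lev m i) := by
  rw [Finset.card_filter, Fintype.sum_sum_type]
  have h1 : ∑ c' : Ka q, (if Sol m (Sum.inr ⟨i, x⟩) (Sum.inl c') then 1 else 0) =
      sJ (lev m i) := by
    simp only [sol_comm m (Sum.inr ⟨i, x⟩), sol_lr]
    exact card_ka _ (lev_le m i)
  rw [h1, Fintype.sum_sigma, Finset.sum_eq_single i]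
  · simp only [sol_rr, true_and]
    rw [← Finset.card_filter, card_rr]
    ring
  · intro i' _ hi'
    refine Finset.sum_eq_zero (fun x' _ => if_neg ?_)
    rw [sol_rr]
    exact fun h => hi' h.1
  · intro h
    exact absurd (Finset.mem_univ i) h

theorem sum_A (j : Fin (q + B)) :
    (univ.filter (fun p => color m p = j)).card = seqA m j := by
  rw [Finset.card_eq_sum_ones]
  refine Fin.addCases (fun i => ?_) (fun b => ?_) j
  · rw [sum_left m i (fun _ => 1) 1 (fun _ _ => rfl)]
    simp [seqA]
  · rw [sum_right m b (fun _ => 1) (fun _ => 1) (fun _ => rfl)]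
    simp [seqA, bigDeg]

theorem sum_E (j : Fin (q + B)) :
    (∑ u ∈ univ.filter (fun u => color m u = j),
      (2 + (univ.filter (fun p => Sol m u p)).card)) = seqE m j := by
  refine Fin.addCases (fun i => ?_) (fun b => ?_) j
  · rw [sum_left m i _ (2 + ∑ b : Fin B, ∑ j : Fin (q + 1),
      if i.val < j.val then m b j * 2 ^ sJ j else 0)]
    · simp [seqE, smallE]
    · rintro c rfl
      rw [card_l]
  · rw [sum_right m b _ (fun j => 2 + 2 * sJ j)]
    · simp [seqE, bigE]
    · rintro ⟨i, x⟩
      rw [card_r]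

end FCon

open FCon in
theorem constr (hc : St_cayley) : St_constr := by
  intro q B m hq hA hE
  have hpos : ∀ j, 0 < seqA m j := by
    intro j
    have h0 : (⟨0, by omega⟩ : Fin (q + B)) ≤ j := Fin.mk_le_of_le_val (Nat.zero_le _)
    have h1 := hA.monotone h0
    have h2 : seqA m (⟨0, by omega⟩ : Fin (q + B)) = 3 := by
      have : (⟨0, by omega⟩ : Fin (q + B)) = Fin.castAdd B ⟨0, by omega⟩ := rfl
      rw [this, seqA, Fin.append_left]
    omega
  refine hc (q + B) (by omega) (Gam m) (Ix m) (gen m) (color m) (seqA m) (gam_two m) (gen_inj m)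
    (gen_ne m) hA hpos ?_ ?_
  · intro j
    rw [← sum_A m j]
  · intro i j hij
    refine lt_of_eq_of_lt ?_ (lt_of_lt_of_eq (hE hij) ?_)
    · rw [← sum_E m j]
      refine Finset.sum_congr rfl (fun u _ => congrArg (fun n => 2 + n)
        (congrArg Finset.card (Finset.ext (fun p => ?_))))
      constructor
      · intro hp
        exact (@Finset.mem_filter _ _ (_) _ _).2 ((@Finset.mem_filter _ _ (_) _ _).1 hp)
      · intro hp
        exact (@Finset.mem_filter _ _ (_) _ _).2 ((@Finset.mem_filter _ _ (_) _ _).1 hp)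
    · rw [← sum_E m i]
      refine Finset.sum_congr rfl (fun u _ => congrArg (fun n => 2 + n)
        (congrArg Finset.card (Finset.ext (fun p => ?_))))
      constructor
      · intro hp
        exact (@Finset.mem_filter _ _ (_) _ _).2 ((@Finset.mem_filter _ _ (_) _ _).1 hp)
      · intro hp
        exact (@Finset.mem_filter _ _ (_) _ _).2 ((@Finset.mem_filter _ _ (_) _ _).1 hp)

end

end MP_1aba1b
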