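import Mathlib

open Finset Classical

namespace MP_1aba1b

noncomputable section

/-- `e_j[v]`: the number of edges of colour `j` with both ends in the closed neighbourhood of
`v`. -/
def closedCount {V : Type} {k : ℕ} (G : SimpleGraph V) (f : Sym2 V → Fin k)
    (j : Fin k) (v : V) : ℕ :=
  {e : Sym2 V | e ∈ G.edgeSet ∧ f e = j ∧ ∀ x ∈ e, x = v ∨ G.Adj v x}.ncard

/-- the number of edges of colour `j` incident with `v`. -/
def colDegree {V : Type} {k : ℕ} (G : SimpleGraph V) (f : Sym2 V → Fin k)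
    (j : Fin k) (v : V) : ℕ :=
  {e : Sym2 V | e ∈ G.edgeSet ∧ f e = j ∧ v ∈ e}.ncard

/-- `G` with the edge colouring `f` is an `(a_1, ..., a_k)`-flip graph (the values of `f` off
the edge set are irrelevant). -/
def IsFlipGraph {V : Type} {k : ℕ} (a : Fin k → ℕ) (G : SimpleGraph V)
    (f : Sym2 V → Fin k) : Prop :=
  (∀ v j, colDegree G f j v = a j) ∧
    ∀ v, ∀ i j : Fin k, i < j → closedCount G f j v < closedCount G f i v

/-- `a` is a `k`-flip sequence. -/
def IsFlipSeq {k : ℕ} (a : Fin k → ℕ) : Prop :=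
  StrictMono a ∧ (∀ j, 0 < a j) ∧
    ∃ (V : Type) (_ : Fintype V) (_ : Nonempty V) (G : SimpleGraph V) (f : Sym2 V → Fin k),
      IsFlipGraph a G f

/-- position `q` (counted from `1`) is bounded for `k`-flip sequences. -/
def PosBounded (k q : ℕ) : Prop :=
  1 ≤ q ∧ q + 1 ≤ k ∧ ∃ h : ℕ, 0 < h ∧ ∀ N : ℕ, ∃ a : Fin k → ℕ, IsFlipSeq a ∧
    (∀ i : Fin k, i.val + 1 = q → a i = h) ∧ (∀ i : Fin k, i.val + 1 = k → N < a i)

end

end MP_1aba1b
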