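import Pool.Agent.R42.FQ.Core

open Finset Classical

namespace MP_1aba1b

noncomputable section

/-- THE TARGET: `q(k) = ⌊(k-1)/3⌋` for every `k ≥ 4`. -/
def St_result : Prop := ∀ k : ℕ, 4 ≤ k → IsGreatest {q : ℕ | PosBounded k q} ((k - 1) / 3)

/-! ### Statements of the pieces -/

/-- FL-TWO: both counts as sums over ordered pairs. -/
def St_two : Prop := ∀ (V : Type) [Fintype V] (k : ℕ) (G : SimpleGraph V) (f : Sym2 V → Fin k)
    (j : Fin k) (v : V),
  (2 * closedCount G f j v = ∑ x : V, ∑ y : V,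
    if G.Adj x y ∧ f s(x, y) = j ∧ (x = v ∨ G.Adj v x) ∧ (y = v ∨ G.Adj v y) then 1 else 0) ∧
  colDegree G f j v = ∑ y : V, if G.Adj v y ∧ f s(v, y) = j then 1 else 0

/-- FL-UP: the triangle counting inequality. -/
def St_upper : Prop := ∀ (k q h : ℕ) (a : Fin k → ℕ), IsFlipSeq a → q < k → k ≤ 3 * q →
  (∀ i : Fin k, i.val < q → a i ≤ h) → ∀ i : Fin k, a i ≤ 2 * (q * h) + 2 * (q * h) ^ 2

/-- FL-CAY: Cayley graphs of elementary abelian 2-groups. -/
def St_cayley : Prop := ∀ (k : ℕ) (_ : 0 < k) (Γ : Type) [AddCommGroup Γ] [Fintype Γ] (Idx : Type)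
    [Fintype Idx] (gen : Idx → Γ) (color : Idx → Fin k) (a : Fin k → ℕ),
  (∀ x : Γ, x + x = 0) → Function.Injective gen → (∀ p, gen p ≠ 0) →
  StrictMono a → (∀ j, 0 < a j) →
  (∀ j, (univ.filter (fun p => color p = j)).card = a j) →
  (∀ i j : Fin k, i < j →
    (∑ u ∈ univ.filter (fun u => color u = j),
      (2 + (univ.filter (fun p => ∃ r, gen r = gen u + gen p)).card)) <
    (∑ u ∈ univ.filter (fun u => color u = i),
      (2 + (univ.filter (fun p => ∃ r, gen r = gen u + gen p)).card))) →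
  IsFlipSeq a

/-- the partial sums `3 + 4 + ... + (j+2)` -/
def sJ (j : ℕ) : ℕ := ∑ i ∈ range j, (i + 3)

/-- the degree of the big colour `b` -/
def bigDeg {q B : ℕ} (m : Fin B → Fin (q + 1) → ℕ) (b : Fin B) : ℕ :=
  ∑ j : Fin (q + 1), m b j * 2 ^ sJ j

/-- twice the closed count of the small colour `i` -/
def smallE {q B : ℕ} (m : Fin B → Fin (q + 1) → ℕ) (i : Fin q) : ℕ :=
  (i.val + 3) * (2 + ∑ b : Fin B, ∑ j : Fin (q + 1),
    if i.val < j.val then m b j * 2 ^ sJ j else 0)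

/-- twice the closed count of the big colour `b` -/
def bigE {q B : ℕ} (m : Fin B → Fin (q + 1) → ℕ) (b : Fin B) : ℕ :=
  ∑ j : Fin (q + 1), m b j * 2 ^ sJ j * (2 + 2 * sJ j)

def seqA {q B : ℕ} (m : Fin B → Fin (q + 1) → ℕ) : Fin (q + B) → ℕ :=
  Fin.append (fun i : Fin q => i.val + 3) (bigDeg m)

def seqE {q B : ℕ} (m : Fin B → Fin (q + 1) → ℕ) : Fin (q + B) → ℕ :=
  Fin.append (smallE m) (bigE m)

/-- FL-CON: the construction (proved from St_cayley). -/
def St_constr : Prop := ∀ (q B : ℕ) (m : Fin B → Fin (q + 1) → ℕ), 1 ≤ q →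
  StrictMono (seqA m) → StrictAnti (seqE m) → IsFlipSeq (seqA m)

/-- FL-NUM: the choice of the parameters. -/
def St_numeric : Prop := ∀ q B N : ℕ, 1 ≤ q → 2 * q + 1 ≤ B →
  ∃ m : Fin B → Fin (q + 1) → ℕ, StrictMono (seqA m) ∧ StrictAnti (seqE m) ∧
    ∀ i : Fin (q + B), i.val + 1 = q + B → N < seqA m i

end

end MP_1aba1b
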