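import Pool.Agent.R42.FQ.Defs

open Finset Classical

namespace MP_1aba1b

theorem final (hu : St_upper) (hc : St_constr) (hn : St_numeric) : St_result := by
  intro k hk
  constructor
  · -- the construction
    set q := (k - 1) / 3 with hq
    have hq1 : 1 ≤ q := by omega
    have hqk : 3 * q + 1 ≤ k := by omega
    obtain ⟨B, hB⟩ : ∃ B, k = q + B := ⟨k - q, by omega⟩
    have hB2 : 2 * q + 1 ≤ B := by omega
    clear_value q
    subst hB
    refine ⟨hq1, by omega, q + 2, by omega, fun N => ?_⟩
    obtain ⟨m, hm1, hm2, hm3⟩ := hn q B N hq1 hB2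
    refine ⟨seqA m, hc q B m hq1 hm1 hm2, fun i hi => ?_, hm3⟩
    have hi' : i.val < q := by omega
    have : i = Fin.castAdd B ⟨i.val, hi'⟩ := by ext; simp
    rw [this]
    simp only [seqA, Fin.append_left]
    omega
  · -- the upper bound
    rintro q ⟨hq1, hqk, h, hh, H⟩
    by_contra hcon
    have hk3 : k ≤ 3 * q := by omega
    obtain ⟨a, ha, ha1, ha2⟩ := H (2 * (q * h) + 2 * (q * h) ^ 2)
    have hmono := ha.1
    have hle : ∀ i : Fin k, i.val < q → a i ≤ h := by
      intro i hi
      have h1 := ha1 ⟨q - 1, by omega⟩ (by simp; omega)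
      rw [← h1]
      exact hmono.monotone (by simp [Fin.le_def]; omega)
    have h2 := hu k q h a ha (by omega) hk3 hle ⟨k - 1, by omega⟩
    have h3 := ha2 ⟨k - 1, by omega⟩ (by simp; omega)
    omega

end MP_1aba1b
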