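import Mathlib
import Pool.Agent.R42.FQ.Defs

/-! FL-NUM (helper26): the choice of the parameters. -/

open Finset

namespace MP_1aba1b

namespace NumAux

theorem tele (U : ℕ → ℤ) (i n : ℕ) (h : i ≤ n) :
    ∑ j ∈ range (n + 1), (if i < j then U (j - 1) - U j else 0) = U i - U n := by
  induction n, h using Nat.le_induction with
  | base =>
    rw [sub_self]
    apply Finset.sum_eq_zero
    intro j hj
    rw [if_neg]
    have := mem_range.1 hj
    omega
  | succ n hn ih =>
    rw [sum_range_succ, ih, if_pos (by omega)]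
    simp

/-- the tails, divided by `2 ^ sJ q` -/
def UU (q C b i : ℕ) : ℕ := if i < q then C / (i + 3) - b else 0

noncomputable def mm (q C b j : ℕ) : ℕ :=
  if j = 0 then 2 * 2 ^ sJ q * b else (UU q C b (j - 1) - UU q C b j) * 2 ^ (sJ q - sJ j)

theorem sJ_mono : Monotone sJ := by
  intro a b h
  unfold sJ
  exact Finset.sum_le_sum_of_subset (Finset.range_mono h)

theorem UU_anti (q C b : ℕ) : Antitone (UU q C b) := by
  intro i j hij
  unfold UU
  split_ifs with h1 h2
  · exact Nat.sub_le_sub_right (Nat.div_le_div_left (by omega) (by omega)) b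
  · omega
  · exact Nat.zero_le _
  · exact le_rfl

theorem mm_w {q C b j : ℕ} (hj : 0 < j) (hjq : j ≤ q) :
    (mm q C b j : ℤ) * 2 ^ sJ j = 2 ^ sJ q * ((UU q C b (j - 1) : ℤ) - UU q C b j) := by
  have h1 := sJ_mono hjq
  have h2 := UU_anti q C b (Nat.sub_le j 1)
  have h3 : mm q C b j * 2 ^ sJ j = (UU q C b (j - 1) - UU q C b j) * 2 ^ sJ q := by
    rw [mm, if_neg (by omega), mul_assoc, ← pow_add, Nat.sub_add_cancel h1]
  have h4 : ((mm q C b j * 2 ^ sJ j : ℕ) : ℤ) =
      (((UU q C b (j - 1) - UU q C b j) * 2 ^ sJ q : ℕ) : ℤ) := by rw [h3]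
  rw [Nat.cast_mul, Nat.cast_mul, Nat.cast_sub h2] at h4
  push_cast at h4
  rw [h4]
  ring

theorem tail {q C b : ℕ} (i : ℕ) (hi : i ≤ q) :
    (∑ j ∈ range (q + 1), if i < j then (mm q C b j : ℤ) * 2 ^ sJ j else 0) =
      2 ^ sJ q * (UU q C b i : ℤ) := by
  have h1 : ∀ j ∈ range (q + 1), (if i < j then (mm q C b j : ℤ) * 2 ^ sJ j else 0) =
      2 ^ sJ q * (if i < j then (UU q C b (j - 1) : ℤ) - UU q C b j else 0) := by
    intro j hj
    split_ifs with h
    · exact mm_w (by omega) (by have := mem_range.1 hj; omega)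
    · simp
  rw [Finset.sum_congr rfl h1, ← Finset.mul_sum, tele (fun j => (UU q C b j : ℤ)) _ _ hi]
  have h2 : UU q C b q = 0 := by simp [UU]
  rw [h2]
  simp

theorem head (f : ℕ → ℤ) (q : ℕ) :
    ∑ j ∈ range (q + 1), f j = f 0 + ∑ j ∈ range (q + 1), if 0 < j then f j else 0 := by
  rw [Finset.sum_range_succ', Finset.sum_range_succ' (fun j => if 0 < j then f j else 0)]
  simp [add_comm]

theorem sJ_eq {q j : ℕ} (h : j ≤ q) : sJ j = ∑ i ∈ range q, if i < j then i + 3 else 0 := by
  rw [← Finset.sum_filter]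
  unfold sJ
  apply Finset.sum_congr _ (fun _ _ => rfl)
  ext i
  simp only [mem_range, mem_filter]
  omega

theorem wsum (q C b : ℕ) : ∑ j ∈ range (q + 1), (mm q C b j : ℤ) * 2 ^ sJ j =
    2 ^ sJ q * (2 * b + UU q C b 0) := by
  rw [head (fun j => (mm q C b j : ℤ) * 2 ^ sJ j), tail 0 (Nat.zero_le _)]
  have h1 : sJ 0 = 0 := by simp [sJ]
  have h2 : mm q C b 0 = 2 * 2 ^ sJ q * b := by simp [mm]
  rw [h1, h2]
  push_cast
  ring

theorem wssum (q C b : ℕ) : ∑ j ∈ range (q + 1), (mm q C b j : ℤ) * 2 ^ sJ j * sJ j =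
    2 ^ sJ q * ∑ i ∈ range q, ((i : ℤ) + 3) * UU q C b i := by
  have h1 : ∀ j ∈ range (q + 1), (mm q C b j : ℤ) * 2 ^ sJ j * sJ j =
      ∑ i ∈ range q, ((i : ℤ) + 3) * (if i < j then (mm q C b j : ℤ) * 2 ^ sJ j else 0) := by
    intro j hj
    have h2 : (sJ j : ℤ) = ∑ i ∈ range q, if i < j then ((i : ℤ) + 3) else 0 := by
      rw [sJ_eq (q := q) (by have := mem_range.1 hj; omega)]
      push_cast
      rfl
    rw [h2]
    rw [Finset.mul_sum]
    apply Finset.sum_congr rfl
    intro i _
    split_ifs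
    · ring
    · ring
  rw [Finset.sum_congr rfl h1, Finset.sum_comm, Finset.mul_sum]
  apply Finset.sum_congr rfl
  intro i hi
  rw [← Finset.mul_sum, tail i (by have := mem_range.1 hi; omega)]
  ring

theorem append_rel (R : ℕ → ℕ → Prop) {q B : ℕ} (f : Fin q → ℕ) (g : Fin B → ℕ)
    (hf : ∀ i j, i < j → R (f i) (f j)) (hg : ∀ i j, i < j → R (g i) (g j))
    (hfg : ∀ i j, R (f i) (g j)) (x y : Fin (q + B)) (h : x < y) :
    R (Fin.append f g x) (Fin.append f g y) := by
  induction x using Fin.addCases with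
  | left i =>
    induction y using Fin.addCases with
    | left j =>
      rw [Fin.append_left, Fin.append_left]
      exact hf i j h
    | right j =>
      rw [Fin.append_left, Fin.append_right]
      exact hfg i j
  | right i =>
    induction y using Fin.addCases with
    | left j =>
      exfalso
      have h' : q + i.val < j.val := h
      have := j.2
      omega
    | right j =>
      rw [Fin.append_right, Fin.append_right]
      have h' : q + i.val < q + j.val := h
      exact hg i j (by rw [Fin.lt_def]; omega)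

end NumAux

open NumAux in
theorem numeric : St_numeric := by
  intro q B N hq hB
  set SB : ℕ := ∑ b ∈ range B, b with hSB
  set K : ℕ := B + (q + 2) * SB + N + q + 3 with hK
  set C : ℕ := 3 * (q + 2).factorial * K with hC
  have hdvd : ∀ i, i < q → (i + 3) ∣ C := fun i hi => by
    have h1 : (i + 3) ∣ (q + 2).factorial := Nat.dvd_factorial (by omega) (by omega)
    exact Dvd.dvd.mul_right (Dvd.dvd.mul_left h1 3) K
  have hV : ∀ i, i < q → (i + 3) * (C / (i + 3)) = C := fun i hi => Nat.mul_div_cancel' (hdvd i hi)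
  have hVK : ∀ i, i < q → K ≤ C / (i + 3) := fun i hi => by
    rw [Nat.le_div_iff_mul_le (by omega)]
    have h1 : q + 2 ≤ (q + 2).factorial := Nat.self_le_factorial _
    calc K * (i + 3) ≤ K * (3 * (q + 2).factorial) := Nat.mul_le_mul_left _ (by omega)
      _ = C := by rw [hC]; ring
  have hU : ∀ b i, b < B → i < q →
      ((i : ℤ) + 3) * UU q C b i = C - ((i : ℤ) + 3) * b := fun b i hb hi => by
    have h1 := hVK i hi
    have h2 : b ≤ C / (i + 3) := by omega
    have h3 : UU q C b i = C / (i + 3) - b := by simp [UU, hi]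
    have h4 : (((i + 3) * (C / (i + 3)) : ℕ) : ℤ) = (C : ℤ) := by rw [hV i hi]
    rw [h3, Nat.cast_sub h2]
    rw [Nat.cast_mul] at h4
    rw [mul_sub]
    rw [← h4]
    push_cast
    ring
  set V0 : ℕ := C / 3 with hV0
  have hV0C : (3 : ℤ) * V0 = C := by
    have := hV 0 (by omega)
    simp only [Nat.zero_add] at this
    exact_mod_cast this
  have hV0K : K ≤ V0 := by simpa using hVK 0 (by omega)
  have hU0 : ∀ b, b < B → (UU q C b 0 : ℤ) = V0 - b := fun b hb => by
    have h1 := hU b 0 hb (by omega)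
    push_cast at h1
    linarith
  set M : ℤ := 2 ^ sJ q with hM
  have hM1 : 1 ≤ M := by rw [hM]; exact one_le_pow₀ (by norm_num)
  have hsJ : (3 : ℤ) ≤ sJ q := by
    have h1 : sJ 1 ≤ sJ q := sJ_mono hq
    have h2 : sJ 1 = 3 := by simp [sJ]
    rw [h2] at h1
    exact_mod_cast h1
  have hSB3 : (3 : ℤ) ≤ SB := by
    have h1 : ∑ b ∈ range 3, b ≤ SB := by
      rw [hSB]
      exact Finset.sum_le_sum_of_subset (Finset.range_mono (by omega))
    have h2 : ∑ b ∈ range 3, b = 3 := by decide
    rw [h2] at h1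
    exact_mod_cast h1
  let m : Fin B → Fin (q + 1) → ℕ := fun b j => mm q C b j
  -- the values
  have hdeg : ∀ b : Fin B, (bigDeg m b : ℤ) = M * (V0 + b) := fun b => by
    unfold bigDeg
    push_cast
    rw [Fin.sum_univ_eq_sum_range (fun j => (mm q C b j : ℤ) * 2 ^ sJ j) (q + 1), wsum,
      hU0 b b.2]
    ring
  have hbigE : ∀ b : Fin B, (bigE m b : ℤ) = 2 * M * (V0 + b) + 2 * M * (q * C - sJ q * b) :=
    fun b => by
    unfold bigE
    push_cast
    rw [Fin.sum_univ_eq_sum_range
      (fun j => (mm q C b j : ℤ) * 2 ^ sJ j * (2 + 2 * sJ j)) (q + 1)]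
    have h1 : ∑ j ∈ range (q + 1), (mm q C b j : ℤ) * 2 ^ sJ j * (2 + 2 * sJ j) =
        2 * ∑ j ∈ range (q + 1), (mm q C b j : ℤ) * 2 ^ sJ j +
        2 * ∑ j ∈ range (q + 1), (mm q C b j : ℤ) * 2 ^ sJ j * sJ j := by
      rw [Finset.mul_sum, Finset.mul_sum, ← Finset.sum_add_distrib]
      apply Finset.sum_congr rfl
      intro j _
      ring
    have h2 : ∑ i ∈ range q, ((i : ℤ) + 3) * UU q C b i = q * C - sJ q * b := by
      rw [Finset.sum_congr rfl fun i hi => hU b i b.2 (mem_range.1 hi), Finset.sum_sub_distrib,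
        ← Finset.sum_mul]
      simp only [Finset.sum_const, card_range, nsmul_eq_mul]
      unfold sJ
      push_cast
      ring
    rw [h1, wsum, wssum, h2, hU0 b b.2]
    ring
  have hsmallE : ∀ i : Fin q, (smallE m i : ℤ) =
      2 * (i + 3) + M * (B * C - (i + 3) * SB) := fun i => by
    unfold smallE
    push_cast
    have h1 : ∀ b : Fin B, (∑ j : Fin (q + 1),
        if i.val < j.val then ((m b j : ℕ) : ℤ) * 2 ^ sJ j else 0) = M * UU q C b i := fun b => by
      rw [Fin.sum_univ_eq_sum_range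
        (fun j => if i.val < j then (mm q C b j : ℤ) * 2 ^ sJ j else 0) (q + 1)]
      exact tail i i.2.le
    rw [Finset.sum_congr rfl fun b _ => h1 b]
    rw [Fin.sum_univ_eq_sum_range (fun b => M * (UU q C b i : ℤ)) B, ← Finset.mul_sum]
    have h2 : ((i : ℤ) + 3) * ∑ b ∈ range B, (UU q C b i : ℤ) = B * C - (i + 3) * SB := by
      rw [Finset.mul_sum, Finset.sum_congr rfl fun b hb => hU b i (mem_range.1 hb) i.2,
        Finset.sum_sub_distrib, ← Finset.mul_sum]
      simp only [Finset.sum_const, card_range, nsmul_eq_mul]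
      rw [hSB]
      push_cast
      ring
    rw [← h2]
    ring
  refine ⟨m, ?_, ?_, ?_⟩
  · apply append_rel (fun x y => x < y)
    · intro i j hij
      have : i.val < j.val := hij
      omega
    · intro b b' hb
      have h1 : (b : ℤ) < b' := by exact_mod_cast hb
      have h2 : (bigDeg m b : ℤ) < bigDeg m b' := by
        rw [hdeg, hdeg]
        nlinarith
      exact_mod_cast h2
    · intro i b
      have h2 : ((i.val + 3 : ℕ) : ℤ) < bigDeg m b := by
        rw [hdeg]
        have h3 : ((i.val + 3 : ℕ) : ℤ) < V0 + b := by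
          have := i.2
          have : i.val + 3 < V0 + b.val := by omega
          exact_mod_cast this
        have h4 : (0 : ℤ) ≤ V0 + b := by positivity
        nlinarith
      exact_mod_cast h2
  · apply append_rel (fun x y => y < x)
    · intro i j hij
      have h1 : (i : ℤ) + 1 ≤ j := by exact_mod_cast hij
      have h2 : (smallE m j : ℤ) < smallE m i := by
        rw [hsmallE, hsmallE]
        have h3 : 3 ≤ M * SB := by nlinarith
        nlinarith
      exact_mod_cast h2
    · intro b b' hb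
      have h1 : (b : ℤ) + 1 ≤ b' := by exact_mod_cast hb
      have h2 : (bigE m b' : ℤ) < bigE m b := by
        rw [hbigE, hbigE]
        have h3 : (b' : ℤ) - b < sJ q * (b' - b) := by nlinarith
        nlinarith
      exact_mod_cast h2
    · intro i b
      have h2 : (bigE m b : ℤ) < smallE m i := by
        rw [hbigE, hsmallE]
        have hi : (i : ℤ) + 3 ≤ q + 2 := by
          have := i.2
          have : i.val + 3 ≤ q + 2 := by omega
          exact_mod_cast this
        have h3 : (b : ℤ) ≤ sJ q * b := by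
          have : (0 : ℤ) ≤ b := by positivity
          nlinarith
        have h4 : ((2 * q + 1 : ℕ) : ℤ) ≤ B := by exact_mod_cast hB
        push_cast at h4
        have h5 : (2 * (q : ℤ) + 1) * C ≤ B * C := mul_le_mul_of_nonneg_right h4 (by positivity)
        have h6 : ((q : ℤ) + 2) * SB < V0 := by
          have : (q + 2) * SB < V0 := by omega
          exact_mod_cast this
        have h7 : ((i : ℤ) + 3) * SB ≤ (q + 2) * SB := mul_le_mul_of_nonneg_right hi (by positivity)
        have h8 : 2 * ((V0 : ℤ) + b) + 2 * (q * C - sJ q * b) < B * C - (i + 3) * SB := by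
          nlinarith
        have h9 : (0 : ℤ) ≤ i := by positivity
        nlinarith
      exact_mod_cast h2
  · intro x hx
    have hB0 : 0 < B := by omega
    have hx' : x = Fin.natAdd q ⟨B - 1, by omega⟩ := by
      apply Fin.ext
      simp
      omega
    rw [hx', seqA, Fin.append_right]
    have h2 : (N : ℤ) < bigDeg m ⟨B - 1, by omega⟩ := by
      rw [hdeg]
      have h3 : (N : ℤ) < V0 := by
        have : N < V0 := by omega
        exact_mod_cast this
      have h5 : (0 : ℤ) ≤ (((⟨B - 1, by omega⟩ : Fin B) : ℕ) : ℤ) := Int.natCast_nonneg _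
      have h6 : (V0 : ℤ) ≤ V0 + (((⟨B - 1, by omega⟩ : Fin B) : ℕ) : ℤ) := by linarith
      calc (N : ℤ) < V0 := h3
        _ ≤ V0 + (((⟨B - 1, by omega⟩ : Fin B) : ℕ) : ℤ) := h6
        _ = 1 * (V0 + (((⟨B - 1, by omega⟩ : Fin B) : ℕ) : ℤ)) := by ring
        _ ≤ M * (V0 + (((⟨B - 1, by omega⟩ : Fin B) : ℕ) : ℤ)) :=
          mul_le_mul_of_nonneg_right hM1 (by linarith)
    exact_mod_cast h2

end MP_1aba1b
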