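import Pool.Agent.R42.FQ.Defs

open Finset Classical

namespace MP_1aba1b

theorem two : St_two := by
  intro V _ k G f j v
  constructor
  · let H : SimpleGraph V :=
      { Adj := fun x y => G.Adj x y ∧ f s(x, y) = j ∧ (x = v ∨ G.Adj v x) ∧
          (y = v ∨ G.Adj v y)
        symm := ⟨by
          rintro x y ⟨h1, h2, h3, h4⟩
          exact ⟨h1.symm, by rw [Sym2.eq_swap]; exact h2, h4, h3⟩⟩
        loopless := ⟨by
          rintro x ⟨h1, -⟩
          exact G.loopless.irrefl x h1⟩ }
    have hset : {e : Sym2 V | e ∈ G.edgeSet ∧ f e = j ∧ ∀ x ∈ e, x = v ∨ G.Adj v x} =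
        H.edgeSet := by
      ext e
      induction e with
      | _ x y =>
        simp [H, Sym2.mem_iff]
        tauto
    have h1 : closedCount G f j v = H.edgeFinset.card := by
      unfold closedCount
      rw [hset, ← SimpleGraph.coe_edgeFinset, Set.ncard_coe_finset]
    rw [h1, ← H.sum_degrees_eq_twice_card_edges]
    refine Finset.sum_congr rfl fun x _ => ?_
    rw [← SimpleGraph.card_neighborFinset_eq_degree, SimpleGraph.neighborFinset_eq_filter,
      Finset.card_filter]
  · have h2 : {e : Sym2 V | e ∈ G.edgeSet ∧ f e = j ∧ v ∈ e} =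
        (fun y => s(v, y)) '' {y : V | G.Adj v y ∧ f s(v, y) = j} := by
      ext e
      constructor
      · rintro ⟨he, hf, hv⟩
        obtain ⟨y, rfl⟩ := Sym2.mem_iff_exists.mp hv
        exact ⟨y, ⟨he, hf⟩, rfl⟩
      · rintro ⟨y, ⟨hy, hf⟩, rfl⟩
        exact ⟨hy, hf, by simp⟩
    unfold colDegree
    rw [h2, Set.ncard_image_of_injective _ (fun a b hab => by
      have h3 : a = b ∨ v = b ∧ a = v := by simpa using hab
      rcases h3 with h3 | ⟨h3, h4⟩
      · exact h3
      · rw [h4, h3])]
    rw [← Finset.card_filter, ← Set.ncard_coe_finset]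
    congr 1
    ext y
    simp

end MP_1aba1b
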