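import Pool.Agent.R42.FQ.Defs

/-!
# FL-UP (helper139): the triangle counting inequality
-/

set_option autoImplicit false

open Finset Classical

namespace MP_1aba1b

noncomputable section

namespace UP

variable {V : Type} [Fintype V] {k : ℕ}

/-- the indicator of an edge whose colour satisfies `P` -/
def tP (G : SimpleGraph V) (f : Sym2 V → Fin k) (P : Fin k → Prop) (x y : V) : ℕ :=
  if G.Adj x y ∧ P (f s(x, y)) then 1 else 0

def wP (G : SimpleGraph V) (x y : V) : ℕ := if G.Adj x y then 1 else 0

def nb (G : SimpleGraph V) (v x : V) : ℕ := if x = v ∨ G.Adj v x then 1 else 0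

theorem tP_symm (G : SimpleGraph V) (f : Sym2 V → Fin k) (P : Fin k → Prop) (x y : V) :
    tP G f P x y = tP G f P y x := by
  unfold tP
  rw [G.adj_comm, Sym2.eq_swap]

theorem wP_symm (G : SimpleGraph V) (x y : V) : wP G x y = wP G y x := by
  unfold wP
  rw [G.adj_comm]

theorem tP_self (G : SimpleGraph V) (f : Sym2 V → Fin k) (P : Fin k → Prop) (x : V) :
    tP G f P x x = 0 := by
  simp [tP]

theorem w_eq (G : SimpleGraph V) (f : Sym2 V → Fin k) (P : Fin k → Prop) (x y : V) :
    wP G x y = tP G f P x y + tP G f (fun j => ¬ P j) x y := by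
  unfold wP tP
  by_cases h : G.Adj x y <;> by_cases h' : P (f s(x, y)) <;> simp [h, h']

theorem nb_eq (G : SimpleGraph V) (v x : V) :
    nb G v x = (if x = v then 1 else 0) + wP G v x := by
  unfold nb wP
  by_cases h : x = v
  · subst h
    simp
  · simp [h]

theorem tw (G : SimpleGraph V) (f : Sym2 V → Fin k) (P : Fin k → Prop) (x y : V) :
    tP G f P x y * wP G x y = tP G f P x y := by
  unfold wP tP
  by_cases h : G.Adj x y <;> simp [h]

/-- sum of the counts of the colours with the property `P` -/
theorem sum_closed (h2 : St_two) (G : SimpleGraph V) (f : Sym2 V → Fin k) (P : Fin k → Prop)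
    [DecidablePred P] (v : V) : ∑ j ∈ univ.filter P, 2 * closedCount G f j v =
      ∑ x : V, ∑ y : V, tP G f P x y * nb G v x * nb G v y := by
  have h1 : ∀ j, 2 * closedCount G f j v = ∑ x : V, ∑ y : V,
      if G.Adj x y ∧ f s(x, y) = j ∧ (x = v ∨ G.Adj v x) ∧ (y = v ∨ G.Adj v y) then 1 else 0 :=
    fun j => (h2 V k G f j v).1
  simp_rw [h1]
  rw [Finset.sum_comm]
  refine Finset.sum_congr rfl fun x _ => ?_
  rw [Finset.sum_comm]
  refine Finset.sum_congr rfl fun y _ => ?_
  unfold tP nb
  by_cases hA : G.Adj x y <;> by_cases hB : (x = v ∨ G.Adj v x) <;>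
    by_cases hC : (y = v ∨ G.Adj v y) <;> by_cases hP : P (f s(x, y)) <;>
    simp [hA, hB, hC, hP]

theorem sum_deg (h2 : St_two) (G : SimpleGraph V) (f : Sym2 V → Fin k) (P : Fin k → Prop)
    [DecidablePred P] (v : V) : ∑ j ∈ univ.filter P, colDegree G f j v = ∑ y : V, tP G f P v y := by
  have h1 : ∀ j, colDegree G f j v = ∑ y : V, if G.Adj v y ∧ f s(v, y) = j then 1 else 0 :=
    fun j => (h2 V k G f j v).2
  simp_rw [h1]
  rw [Finset.sum_comm]
  refine Finset.sum_congr rfl fun y _ => ?_
  unfold tP
  by_cases hA : G.Adj v y <;> by_cases hP : P (f s(v, y)) <;> simp [hA, hP]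

/-- expansion of the closed neighbourhood -/
theorem expand (G : SimpleGraph V) (f : Sym2 V → Fin k) (P : Fin k → Prop) (v : V) :
    ∑ x : V, ∑ y : V, tP G f P x y * nb G v x * nb G v y =
      ∑ x : V, ∑ y : V, wP G v x * wP G v y * tP G f P x y + 2 * ∑ y : V, tP G f P v y := by
  have h1 : ∀ x y : V, tP G f P x y * nb G v x * nb G v y =
      (if x = v then (if y = v then tP G f P x y else 0) else 0) +
      (if x = v then tP G f P x y * wP G v y else 0) +
      (if y = v then tP G f P x y * wP G v x else 0) +
      wP G v x * wP G v y * tP G f P x y := by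
    intro x y
    rw [nb_eq, nb_eq]
    by_cases hx : x = v <;> by_cases hy : y = v <;> simp [hx, hy] <;> ring
  simp_rw [h1, Finset.sum_add_distrib]
  have e1 : ∑ x : V, ∑ y : V, (if x = v then (if y = v then tP G f P x y else 0) else 0) = 0 := by
    refine Finset.sum_eq_zero fun x _ => Finset.sum_eq_zero fun y _ => ?_
    by_cases hx : x = v
    · by_cases hy : y = v
      · subst hx
        subst hy
        simp [tP_self]
      · simp [hy]
    · simp [hx]
  have e2 : ∑ x : V, ∑ y : V, (if x = v then tP G f P x y * wP G v y else 0) =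
      ∑ y : V, tP G f P v y := by
    rw [Finset.sum_comm]
    refine Finset.sum_congr rfl fun y _ => ?_
    rw [Finset.sum_ite_eq' univ v]
    simp [tw]
  have e3 : ∑ x : V, ∑ y : V, (if y = v then tP G f P x y * wP G v x else 0) =
      ∑ y : V, tP G f P v y := by
    refine Finset.sum_congr rfl fun x _ => ?_
    rw [Finset.sum_ite_eq' univ v]
    simp only [Finset.mem_univ, if_true]
    rw [wP_symm, tw, tP_symm]
  rw [e1, e2, e3]
  ring

/-- the triple sums -/
def T (p r t : V → V → ℕ) : ℕ := ∑ v : V, ∑ x : V, ∑ y : V, p v x * r v y * t x y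

theorem T_swap23 (p r t : V → V → ℕ) (ht : ∀ x y, t x y = t y x) : T p r t = T r p t := by
  unfold T
  refine Finset.sum_congr rfl fun v _ => ?_
  rw [Finset.sum_comm]
  refine Finset.sum_congr rfl fun x _ => Finset.sum_congr rfl fun y _ => ?_
  rw [ht y x]
  ring

theorem T_swap12 (p r t : V → V → ℕ) (hp : ∀ x y, p x y = p y x) : T p r t = T p t r := by
  unfold T
  rw [Finset.sum_comm]
  refine Finset.sum_congr rfl fun v _ => Finset.sum_congr rfl fun x _ =>
    Finset.sum_congr rfl fun y _ => ?_
  rw [hp x v]
  ring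

theorem T_add1 (p p' r t : V → V → ℕ) : T (fun x y => p x y + p' x y) r t = T p r t + T p' r t := by
  unfold T
  simp only [add_mul, Finset.sum_add_distrib]

theorem T_add2 (p r r' t : V → V → ℕ) : T p (fun x y => r x y + r' x y) t = T p r t + T p r' t := by
  unfold T
  simp only [add_mul, mul_add, Finset.sum_add_distrib]

theorem T_add3 (p r t t' : V → V → ℕ) : T p r (fun x y => t x y + t' x y) = T p r t + T p r t' := by
  unfold T
  simp only [mul_add, Finset.sum_add_distrib]

theorem card_lt (k q : ℕ) (h : q ≤ k) :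
    (univ.filter (fun j : Fin k => j.val < q)).card = q := by
  have h1 : (univ.filter (fun j : Fin k => j.val < q)).card =
      ∑ i ∈ range k, if i < q then 1 else 0 := by
    rw [Finset.card_filter, ← Fin.sum_univ_eq_sum_range (fun i => if i < q then 1 else 0) k]
  rw [h1, ← Finset.card_filter]
  have h2 : (range k).filter (fun i => i < q) = range q := by
    ext i
    simp only [Finset.mem_filter, Finset.mem_range]
    omega
  rw [h2, Finset.card_range]

theorem card_ge (k q : ℕ) (h : q ≤ k) :
    (univ.filter (fun j : Fin k => ¬ j.val < q)).card = k - q := by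
  have h1 := card_lt k q h
  have h2 := Finset.card_filter_add_card_filter_not (s := (univ : Finset (Fin k)))
    (fun j : Fin k => j.val < q)
  rw [Finset.card_univ, Fintype.card_fin] at h2
  omega

end UP

open UP

theorem upper (h2 : St_two) : St_upper := by
  intro k q h a ⟨_, _, V, _, hne, G, f, hdeg, hflip⟩ hqk hk3 hah
  have hq : 1 ≤ q := by omega
  set P : Fin k → Prop := fun j => j.val < q with hP
  set s := tP G f P with hs
  set b := tP G f (fun j => ¬ P j) with hb
  set w := wP G with hw
  set n := Fintype.card V with hn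
  have hn0 : 0 < n := Fintype.card_pos
  set AS := ∑ j ∈ univ.filter P, a j with hAS
  set AB := ∑ j ∈ univ.filter (fun j => ¬ P j), a j with hAB
  have ssym : ∀ x y, s x y = s y x := tP_symm G f P
  have bsym : ∀ x y, b x y = b y x := tP_symm G f _
  have wsym : ∀ x y, w x y = w y x := wP_symm G
  have hwe : w = fun x y => s x y + b x y := by
    funext x y
    exact w_eq G f P x y
  have dS : ∀ v, ∑ y : V, s v y = AS := by
    intro v
    rw [hs, ← sum_deg h2 G f P v]
    exact Finset.sum_congr rfl fun j _ => hdeg v j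
  have dB : ∀ v, ∑ y : V, b v y = AB := by
    intro v
    rw [hb, ← sum_deg h2 G f _ v]
    exact Finset.sum_congr rfl fun j _ => hdeg v j
  -- the flip inequality
  have flip : ∀ v, ∑ j ∈ univ.filter (fun j => ¬ P j), 2 * closedCount G f j v ≤
      2 * ∑ j ∈ univ.filter P, 2 * closedCount G f j v := by
    intro v
    set i0 : Fin k := ⟨q - 1, by omega⟩ with hi0
    have u1 : ∑ j ∈ univ.filter (fun j => ¬ P j), 2 * closedCount G f j v ≤
        (k - q) * (2 * closedCount G f i0 v) := by
      rw [← card_ge k q hqk.le, ← smul_eq_mul]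
      refine Finset.sum_le_card_nsmul _ _ _ fun j hj => ?_
      have hj' : ¬ j.val < q := (Finset.mem_filter.1 hj).2
      have : i0 < j := by
        rw [Fin.lt_def, hi0]
        simp only
        omega
      have := hflip v i0 j this
      omega
    have u2 : q * (2 * closedCount G f i0 v) ≤ ∑ j ∈ univ.filter P, 2 * closedCount G f j v := by
      have hc := card_lt k q hqk.le
      rw [← smul_eq_mul]
      nth_rewrite 1 [← hc]
      refine Finset.card_nsmul_le_sum _ _ _ fun j hj => ?_
      have hj' : j.val < q := (Finset.mem_filter.1 hj).2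
      rcases eq_or_ne j i0 with h | h
      · rw [h]
      · have : j < i0 := by
          rw [Fin.lt_def, hi0]
          have : j.val ≠ q - 1 := fun h' => h (Fin.ext h')
          simp only
          omega
        have := hflip v j i0 this
        omega
    have u3 : (k - q) * (2 * closedCount G f i0 v) ≤ (2 * q) * (2 * closedCount G f i0 v) :=
      Nat.mul_le_mul_right _ (by omega)
    calc _ ≤ (k - q) * (2 * closedCount G f i0 v) := u1
      _ ≤ (2 * q) * (2 * closedCount G f i0 v) := u3
      _ = 2 * (q * (2 * closedCount G f i0 v)) := by ring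
      _ ≤ _ := Nat.mul_le_mul_left 2 u2
  have main : T w w b + 2 * (n * AB) ≤ 2 * (T w w s + 2 * (n * AS)) := by
    have hB : ∑ v : V, ∑ j ∈ univ.filter (fun j => ¬ P j), 2 * closedCount G f j v =
        T w w b + 2 * (n * AB) := by
      have : ∀ v, ∑ j ∈ univ.filter (fun j => ¬ P j), 2 * closedCount G f j v =
          ∑ x : V, ∑ y : V, w v x * w v y * b x y + 2 * AB := by
        intro v
        rw [sum_closed h2, expand, ← dB v]
      simp_rw [this]
      rw [Finset.sum_add_distrib, Finset.sum_const, Finset.card_univ, smul_eq_mul]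
      unfold T
      ring
    have hS : ∑ v : V, ∑ j ∈ univ.filter P, 2 * closedCount G f j v =
        T w w s + 2 * (n * AS) := by
      have : ∀ v, ∑ j ∈ univ.filter P, 2 * closedCount G f j v =
          ∑ x : V, ∑ y : V, w v x * w v y * s x y + 2 * AS := by
        intro v
        rw [sum_closed h2, expand, ← dS v]
      simp_rw [this]
      rw [Finset.sum_add_distrib, Finset.sum_const, Finset.card_univ, smul_eq_mul]
      unfold T
      ring
    rw [← hB, ← hS, Finset.mul_sum]
    exact Finset.sum_le_sum fun v _ => flip v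
  have e1 : T w w s = T s s s + 2 * T s s b + T s b b := by
    rw [hwe, T_add1, T_add2, T_add2]
    have a1 : T s b s = T s s b := T_swap12 s b s ssym
    have a2 : T b s s = T s s b := by
      rw [T_swap23 b s s ssym, a1]
    have a3 : T b b s = T s b b := by
      rw [T_swap12 b b s bsym, T_swap23 b s b bsym]
    rw [a1, a2, a3]
    ring
  have e2 : T w w b = T s s b + 2 * T s b b + T b b b := by
    rw [hwe, T_add1, T_add2, T_add2]
    rw [T_swap23 b s b bsym]
    ring
  have e3 : T s s s + T s s b ≤ n * AS ^ 2 := by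
    rw [← T_add3]
    have : ∀ x y, s x y + b x y ≤ 1 := by
      intro x y
      have h1 := congrFun (congrFun hwe x) y
      rw [← h1, hw]
      unfold wP
      split_ifs <;> simp
    calc T s s (fun x y => s x y + b x y)
        ≤ ∑ v : V, ∑ x : V, ∑ y : V, s v x * s v y := by
          unfold T
          refine Finset.sum_le_sum fun v _ => Finset.sum_le_sum fun x _ =>
            Finset.sum_le_sum fun y _ => ?_
          exact (Nat.mul_le_mul_left _ (this x y)).trans (by rw [mul_one])
      _ = ∑ v : V, AS ^ 2 := by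
          refine Finset.sum_congr rfl fun v _ => ?_
          rw [← Finset.sum_mul_sum, dS v]
          ring
      _ = n * AS ^ 2 := by
          rw [Finset.sum_const, Finset.card_univ, smul_eq_mul]
  have e4 : n * (2 * AB) ≤ n * (3 * AS ^ 2 + 4 * AS) := by
    rw [e1, e2] at main
    nlinarith
  have e5 : 2 * AB ≤ 3 * AS ^ 2 + 4 * AS := Nat.le_of_mul_le_mul_left e4 hn0
  have e6 : AS ≤ q * h := by
    have hc := card_lt k q hqk.le
    rw [hAS, ← smul_eq_mul]
    nth_rewrite 2 [← hc]
    refine Finset.sum_le_card_nsmul _ _ _ fun j hj => ?_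
    exact hah j (Finset.mem_filter.1 hj).2
  have e7 : AS ^ 2 ≤ (q * h) ^ 2 := Nat.pow_le_pow_left e6 2
  intro i
  by_cases hi : i.val < q
  · have h3 := hah i hi
    have h4 : h ≤ q * h := Nat.le_mul_of_pos_left h hq
    have h5 : 0 ≤ (q * h) ^ 2 := Nat.zero_le _
    omega
  · have h3 : a i ≤ AB :=
      Finset.single_le_sum (f := a) (fun j _ => Nat.zero_le _)
        (Finset.mem_filter.2 ⟨Finset.mem_univ i, hi⟩)
    omega

end

end MP_1aba1b
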